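import Pool.Agent.RYD.Fin10

namespace Pool.Agent.Results.MP_95e38d_lc.MerlinArthurSeparation

open Filter Pool.Agent.Lib_helper62.PToda Pool.Agent.Lib_helper58.RToda Pool.Agent.RYD

/-- Relative to one oracle the `W[2]` type property `Yes` is decided by none of countably many given
randomised algorithms with exact counting queries over tuples of length `F k * n ^ e` with tests of
depth at most `((k - 4 c - 4 e) / 2 - 3 / 8) log n`, not even at the `(k, n)` with at most one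
solution, and its complement is accepted by none of countably many given Merlin-Arthur ones (test
depth at most `((k - 8 c - 4 e) / 2 - 3 / 8) log n`). -/
theorem result {ι κ : Type} [Countable ι] [Countable κ]
    (ra : ι → ℕ → ℕ → RandAlg Bits) (c e : ι → ℕ)
    (hra : ∀ i, ∃ (F : ℕ → ℕ) (H : ℕ → ℕ → ℕ),
      (∀ k, 4 * c i + 4 * e i < k →
        ∀ᶠ n in atTop, 2 ^ (8 * H k n) ≤ n ^ (4 * (k - (4 * c i + 4 * e i)) - 3)) ∧
      ∀ k n ω, ((ra i k n).run ω).Deterministic ∧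
        ((ra i k n).run ω).Within (F k * n ^ c i) (F k * n ^ e i) (H k n) (F k * n ^ c i))
    (ma : κ → ℕ → ℕ → MAAlg Bits) (c' e' : κ → ℕ)
    (hma : ∀ j, ∃ (F : ℕ → ℕ) (H : ℕ → ℕ → ℕ),
      (∀ k, 8 * c' j + 4 * e' j < k →
        ∀ᶠ n in atTop, 2 ^ (8 * H k n) ≤ n ^ (4 * (k - (8 * c' j + 4 * e' j)) - 3)) ∧
      ∀ k n, (ma j k n).wits + 1 ≤ 2 ^ (F k * n ^ c' j) ∧
        ∀ y ω, (((ma j k n).run y).run ω).Deterministic ∧
          (((ma j k n).run y).run ω).Within (F k * n ^ c' j) (F k * n ^ e' j) (H k n)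
            (F k * n ^ c' j)) :
    ∃ A : Bits → Bool,
      (∀ i k, 4 * c i + 4 * e i < k → ∀ n₀, ∃ n, n₀ ≤ n ∧
        {s : Fin k → Fin n | ∀ v : Fin n,
          A (k, n, List.ofFn (fun i => (s i : ℕ)), (v : ℕ)) = true}.Subsingleton ∧
        ¬ ((Yes A k n → 2 / 3 ≤ (ra i k n).prob A) ∧
          (¬ Yes A k n → (ra i k n).prob A ≤ 1 / 3))) ∧
      (∀ j k, 8 * c' j + 4 * e' j < k → ∀ n₀, ∃ n, n₀ ≤ n ∧
        ¬ ((¬ Yes A k n → ∃ y, 2 / 3 ≤ ((ma j k n).run y).prob A) ∧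
          (Yes A k n → ∀ y, ((ma j k n).run y).prob A ≤ 1 / 3))) := by
  obtain ⟨A, h1, h2⟩ := bothW κ ι ma ra c' e' c e hma hra
  refine ⟨A, fun i k hk n₀ => ?_, h2⟩
  obtain ⟨n, hn, hu, hs⟩ := h1 i k hk n₀
  exact ⟨n, hn, fun s hs s' hs' => hu s s' hs hs', hs⟩

end Pool.Agent.Results.MP_95e38d_lc.MerlinArthurSeparation
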