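import Pool.Agent.OWH.Main

/-!
# An oracle with an infinite W-hierarchy relative to which the parameterized Toda theorem holds
-/

namespace Pool.Agent.Results.MP_95e38d_lc.OracleCollapse

open Pool.Agent.OWH Pool.Agent.Lib_helper62.PToda

/-- There is an oracle relative to which all given XP algorithms with questions of fpt size are
decided by the parity of one explicit counting problem with tests of one oracle bit, while the
problems `Sip_t` (in `W[t+1]`) are not decided by the given algorithms of type `A[t]`. By the second
part every algorithm of type `A[t]` with string inputs and questions of fpt size is such an XP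
algorithm. -/
theorem result :
    (∀ (X : ℕ → XP) (a : ℕ → ℕ → ℕ → Alg Adr) (t c : ℕ → ℕ), (∀ e, TypeA (t e) (c e) (a e)) →
      ∃ A : Adr → Bool,
        (∀ e k x, ((X e).run k x).eval A = true ↔ Odd ((X e).count A e k x)) ∧
        (∀ e k, c e < k → ∀ n₀, ∃ n ≥ n₀, ¬ ((a e k n).Accepts A ↔ Sip A (t e) k n))) ∧
    (∀ (t c : ℕ) (F G : ℕ → ℕ) (a : ℕ → List Bool → Alg Adr),
      (∀ k x, (a k x).Within (F k * (x.length + 1) ^ c) (G k) (G k) t
          (F k * (x.length + 1) ^ c) ∧
        (a k x).All (fun q => q.size < F k * (x.length + 1) ^ c)) →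
      ∃ X : XP, ∀ A k x, (X.run k x).eval A = true ↔ (a k x).Accepts A) :=
  main

end Pool.Agent.Results.MP_95e38d_lc.OracleCollapse
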