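import Pool.Agent.Lib_helper62.PToda.Neg

namespace Pool.Agent.Results.MP_95e38d_lc.OracleSeparation

open Pool.Agent.Lib_helper62.PToda

/-- The parameterized Toda theorem fails relative to an oracle. -/
theorem result {ι : Type} [Countable ι] (alg : ι → ℕ → ℕ → Strat Bits) (c : ι → ℕ)
    (halg : ∀ i, FptBounded (c i) (alg i)) :
    ∃ A : Bits → Bool, ∀ i k, c i < k → ∀ n₀,
      (∃ n, n₀ ≤ n ∧ ¬ ((alg i k n).Accepts A ↔ ¬ Yes A k n)) ∧
      ((∀ n, (alg i k n).Deterministic) →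
        ∃ n, n₀ ≤ n ∧ ¬ ((alg i k n).Accepts A ↔ Yes A k n)) :=
  separation alg c halg

end Pool.Agent.Results.MP_95e38d_lc.OracleSeparation
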